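import Pool.Agent.Helper69.EN.T1

/-!
Points of the curve `x ^ e = κ y ^ f` modulo `w ^ 3` with `x, y` a bit larger than `w`.
-/

set_option autoImplicit false

namespace Pool.Agent.Helper69.EN

open Finset

/-- the part of a squarefree number which is prime to `N` -/
theorem prime_part {w N : ℕ} (hw : Squarefree w) (hN : 0 < N) :
    ∃ w' : ℕ, 0 < w' ∧ w' ∣ w ∧ w ≤ N * w' ∧ Nat.Coprime w' N ∧ Squarefree w' := by
  have hw0 : 0 < w := Nat.pos_of_ne_zero hw.ne_zero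
  obtain ⟨w', hw'⟩ := Nat.gcd_dvd_left w N
  have hg : 0 < Nat.gcd w N := Nat.gcd_pos_of_pos_left _ hw0
  have hw'0 : 0 < w' := by
    rcases Nat.eq_zero_or_pos w' with h0 | h0
    · rw [h0, mul_zero] at hw'
      omega
    · exact h0
  have hdvd : w' ∣ w := ⟨Nat.gcd w N, by rw [mul_comm]; exact hw'⟩
  refine ⟨w', hw'0, hdvd, ?_, ?_, hw.squarefree_of_dvd hdvd⟩
  · calc w = Nat.gcd w N * w' := hw'
      _ ≤ N * w' := Nat.mul_le_mul_right _ (Nat.le_of_dvd hN (Nat.gcd_dvd_right _ _))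
  · rw [Nat.coprime_iff_gcd_eq_one]
    by_contra hc
    obtain ⟨p, hp, hpd⟩ := Nat.exists_prime_and_dvd hc
    have h1 : p ∣ w' := hpd.trans (Nat.gcd_dvd_left _ _)
    have h2 : p ∣ N := hpd.trans (Nat.gcd_dvd_right _ _)
    have h3 : p ∣ Nat.gcd w N := Nat.dvd_gcd (h1.trans hdvd) h2
    have h4 : p * p ∣ w := by
      rw [hw']
      exact mul_dvd_mul h3 h1
    exact hp.not_isUnit (hw p h4)

theorem coprime_of_nat {e f w : ℕ} (h : Nat.Coprime w (2 * e * f * ((e : ℤ) - f).natAbs)) :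
    IsCoprime (2 * (e : ℤ) * f * (e - f)) (w : ℤ) := by
  rw [Int.isCoprime_iff_gcd_eq_one, Int.gcd_comm]
  have h1 : Int.gcd (w : ℤ) (2 * (e : ℤ) * f * (e - f)) =
      Nat.gcd w (2 * e * f * ((e : ℤ) - f).natAbs) := by
    rw [Int.gcd]
    congr 1
    rw [Int.natAbs_mul, Int.natAbs_mul, Int.natAbs_mul]
    simp
  rw [h1]
  exact h

theorem t1c_aux {e : ℕ} (he : 0 < e) (f : ℕ) {ε : ℝ} (hε : 0 < ε) :
    ∃ C : ℝ, 0 < C ∧ ∀ (w X : ℕ) (κ : ℤ) (K : Finset (ℕ × ℕ)), 0 < w →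
      IsCoprime (2 * (e : ℤ) * f * (e - f)) (w : ℤ) →
      (∀ P ∈ K, P.1 ≤ X ∧ P.2 ≤ X ∧ Nat.Coprime P.1 w ∧ Nat.Coprime P.2 w ∧
        (w : ℤ) ^ 3 ∣ (P.1 : ℤ) ^ e - κ * (P.2 : ℤ) ^ f) →
      (K.card : ℝ) ≤ C * (w : ℝ) ^ (3 / 2 + ε) * ((X : ℝ) / w ^ 2 + 1) ^ 2 := by
  classical
  obtain ⟨C, hC, h⟩ := t1_plus he f hε
  refine ⟨2 * C, by positivity, fun w X κ K hw hcop hK => ?_⟩
  have hwR : (0 : ℝ) < w := by exact_mod_cast hw
  have hw1 : (1 : ℝ) ≤ w := by exact_mod_cast hw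
  have hw2 : 0 < w ^ 2 := by positivity
  set φ : ℕ × ℕ → ℕ × ℕ := fun P => (P.1 / w ^ 2, P.2 / w ^ 2) with hφ
  have h1 : ∀ c ∈ K.image φ, (((K.filter fun P => φ P = c).card : ℕ) : ℝ) ≤
      2 * C * (w : ℝ) ^ (3 / 2 + ε) := by
    intro c _
    have h2 := h w κ ((w ^ 2 * c.1 : ℕ) : ℤ) ((w ^ 2 * c.2 : ℕ) : ℤ) (w ^ 2)
      ((K.filter fun P => φ P = c).image fun P => ((P.1 : ℤ), (P.2 : ℤ))) hw hcop le_rfl ?_ ?_ ?_ ?_
      ?_
    · rw [Finset.card_image_of_injective] at h2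
      · refine h2.trans ?_
        have h3 : √((w : ℝ) * ((w ^ 2 : ℕ) : ℝ)) = (w : ℝ) ^ (3 / 2 : ℝ) := by
          have h4 : (w : ℝ) * ((w ^ 2 : ℕ) : ℝ) = (w : ℝ) ^ (3 : ℝ) := by
            push_cast
            rw [← pow_succ']
            norm_cast
          rw [h4, Real.sqrt_eq_rpow, ← Real.rpow_mul hwR.le]
          norm_num
        have h4 : (w : ℝ) ≤ (w : ℝ) ^ (3 / 2 : ℝ) := by
          calc (w : ℝ) = (w : ℝ) ^ (1 : ℝ) := (Real.rpow_one _).symm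
            _ ≤ _ := Real.rpow_le_rpow_of_exponent_le hw1 (by norm_num)
        rw [h3, Real.rpow_add hwR]
        calc C * (w : ℝ) ^ ε * (w + (w : ℝ) ^ (3 / 2 : ℝ)) ≤
            C * (w : ℝ) ^ ε * ((w : ℝ) ^ (3 / 2 : ℝ) + (w : ℝ) ^ (3 / 2 : ℝ)) :=
              mul_le_mul_of_nonneg_left (by linarith) (by positivity)
          _ = 2 * C * ((w : ℝ) ^ (3 / 2 : ℝ) * (w : ℝ) ^ ε) := by ring
      · intro P Q hPQ
        simp only [Prod.mk.injEq, Nat.cast_inj] at hPQ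
        exact Prod.ext hPQ.1 hPQ.2
    all_goals
      intro P hP
      obtain ⟨Q, hQ, rfl⟩ := Finset.mem_image.1 hP
      obtain ⟨hQK, hQc⟩ := Finset.mem_filter.1 hQ
      have hQ1 : Q.1 / w ^ 2 = c.1 := congrArg Prod.fst hQc
      have hQ2 : Q.2 / w ^ 2 = c.2 := congrArg Prod.snd hQc
      obtain ⟨-, -, k1, k2, k3⟩ := hK Q hQK
    · rw [← hQ1]
      have e1 := Nat.mul_div_le Q.1 (w ^ 2)
      have e2 := Nat.lt_mul_div_succ Q.1 hw2
      rw [mul_add, mul_one] at e2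
      show ((w ^ 2 * (Q.1 / w ^ 2) : ℕ) : ℤ) ≤ (Q.1 : ℤ) ∧
        (Q.1 : ℤ) < ((w ^ 2 * (Q.1 / w ^ 2) : ℕ) : ℤ) + ((w ^ 2 : ℕ) : ℤ)
      exact ⟨by exact_mod_cast e1, by exact_mod_cast e2⟩
    · rw [← hQ2]
      have e1 := Nat.mul_div_le Q.2 (w ^ 2)
      have e2 := Nat.lt_mul_div_succ Q.2 hw2
      rw [mul_add, mul_one] at e2
      show ((w ^ 2 * (Q.2 / w ^ 2) : ℕ) : ℤ) ≤ (Q.2 : ℤ) ∧
        (Q.2 : ℤ) < ((w ^ 2 * (Q.2 / w ^ 2) : ℕ) : ℤ) + (w : ℤ) ^ 2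
      exact ⟨by exact_mod_cast e1, by exact_mod_cast e2⟩
    · exact Nat.isCoprime_iff_coprime.2 k1
    · exact Nat.isCoprime_iff_coprime.2 k2
    · exact k3
  have h2 : ((K.image φ).card : ℝ) ≤ ((X : ℝ) / w ^ 2 + 1) ^ 2 := by
    have h3 : (K.image φ).card ≤
        (Finset.range (X / w ^ 2 + 1) ×ˢ Finset.range (X / w ^ 2 + 1)).card := by
      refine Finset.card_le_card ?_
      intro c hc
      obtain ⟨Q, hQ, rfl⟩ := Finset.mem_image.1 hc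
      obtain ⟨k1, k2, -⟩ := hK Q hQ
      rw [Finset.mem_product, Finset.mem_range, Finset.mem_range]
      exact ⟨Nat.lt_succ_of_le (Nat.div_le_div_right k1),
        Nat.lt_succ_of_le (Nat.div_le_div_right k2)⟩
    rw [Finset.card_product, Finset.card_range] at h3
    have h4 : ((X / w ^ 2 : ℕ) : ℝ) ≤ (X : ℝ) / w ^ 2 := by
      have := @Nat.cast_div_le ℝ _ _ _ X (w ^ 2)
      push_cast at this
      exact this
    have h5 : ((K.image φ).card : ℝ) ≤ (((X / w ^ 2 + 1) * (X / w ^ 2 + 1) : ℕ) : ℝ) := by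
      exact_mod_cast h3
    push_cast at h5
    refine h5.trans ?_
    rw [← pow_two]
    have h6 : (0 : ℝ) ≤ ((X / w ^ 2 : ℕ) : ℝ) := Nat.cast_nonneg _
    exact pow_le_pow_left₀ (by linarith) (by linarith) 2
  rw [Finset.card_eq_sum_card_image φ K]
  push_cast
  calc _ ≤ ∑ c ∈ K.image φ, 2 * C * (w : ℝ) ^ (3 / 2 + ε) := Finset.sum_le_sum h1
    _ = ((K.image φ).card : ℝ) * (2 * C * (w : ℝ) ^ (3 / 2 + ε)) := by
        rw [Finset.sum_const, nsmul_eq_mul]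
    _ ≤ ((X : ℝ) / w ^ 2 + 1) ^ 2 * (2 * C * (w : ℝ) ^ (3 / 2 + ε)) :=
        mul_le_mul_of_nonneg_right h2 (by positivity)
    _ = _ := by ring

/-- `k`-fold products of pairs -/
def prodSet (k : ℕ) (K : Finset (ℕ × ℕ)) : Finset (ℕ × ℕ) :=
  (Fintype.piFinset (fun _ : Fin k => K)).image fun t => (∏ i, (t i).1, ∏ i, (t i).2)

theorem prod_card (k : ℕ) (K : Finset (ℕ × ℕ)) (hK : ∀ P ∈ K, 0 < P.1 ∧ 0 < P.2) (D : ℝ)
    (hD : ∀ c ∈ prodSet k K, (c.1.divisors.card : ℝ) * c.2.divisors.card ≤ D) :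
    (K.card : ℝ) ^ k ≤ (prodSet k K).card * D ^ k := by
  classical
  set T := Fintype.piFinset (fun _ : Fin k => K) with hT
  have h1 : (T.card : ℝ) = (K.card : ℝ) ^ k := by
    rw [hT, Fintype.card_piFinset, Finset.prod_const, Finset.card_univ, Fintype.card_fin]
    push_cast
    rfl
  rw [← h1, Finset.card_eq_sum_card_image (fun t => (∏ i, (t i).1, ∏ i, (t i).2)) T]
  push_cast
  calc _ ≤ ∑ c ∈ T.image (fun t => (∏ i, (t i).1, ∏ i, (t i).2)), D ^ k := by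
        refine Finset.sum_le_sum fun c hc => ?_
        have h2 : ((T.filter fun t => (∏ i, (t i).1, ∏ i, (t i).2) = c).card) ≤
            (Fintype.piFinset (fun _ : Fin k => c.1.divisors ×ˢ c.2.divisors)).card := by
          refine Finset.card_le_card ?_
          intro t ht
          rw [Finset.mem_filter, hT, Fintype.mem_piFinset] at ht
          rw [Fintype.mem_piFinset]
          intro i
          have e1 : c.1 = ∏ i, (t i).1 := by rw [← ht.2]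
          have e2 : c.2 = ∏ i, (t i).2 := by rw [← ht.2]
          rw [Finset.mem_product, Nat.mem_divisors, Nat.mem_divisors, e1, e2]
          refine ⟨⟨Finset.dvd_prod_of_mem (fun i => (t i).1) (Finset.mem_univ i), ?_⟩,
            Finset.dvd_prod_of_mem (fun i => (t i).2) (Finset.mem_univ i), ?_⟩
          · exact (Finset.prod_pos fun i _ => (hK _ (ht.1 i)).1).ne'
          · exact (Finset.prod_pos fun i _ => (hK _ (ht.1 i)).2).ne'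
        rw [Fintype.card_piFinset, Finset.prod_const, Finset.card_univ, Fintype.card_fin,
          Finset.card_product] at h2
        calc (((T.filter fun t => (∏ i, (t i).1, ∏ i, (t i).2) = c).card : ℕ) : ℝ) ≤
            (((c.1.divisors.card * c.2.divisors.card) ^ k : ℕ) : ℝ) := by exact_mod_cast h2
          _ = ((c.1.divisors.card : ℝ) * c.2.divisors.card) ^ k := by push_cast; rfl
          _ ≤ D ^ k := pow_le_pow_left₀ (by positivity) (hD c hc) k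
    _ = _ := by
        rw [Finset.sum_const, nsmul_eq_mul]
        rfl

theorem prod_rel {k w e f : ℕ} {κ : ℤ} {K : Finset (ℕ × ℕ)}
    (hK : ∀ P ∈ K, (w : ℤ) ^ 3 ∣ (P.1 : ℤ) ^ e - κ * (P.2 : ℤ) ^ f) :
    ∀ c ∈ prodSet k K, (w : ℤ) ^ 3 ∣ (c.1 : ℤ) ^ e - κ ^ k * (c.2 : ℤ) ^ f := by
  intro c hc
  obtain ⟨t, ht, rfl⟩ := Finset.mem_image.1 hc
  rw [Fintype.mem_piFinset] at ht
  have h1 : ∀ s : Finset (Fin k), (w : ℤ) ^ 3 ∣ (∏ i ∈ s, ((t i).1 : ℤ)) ^ e -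
      κ ^ s.card * (∏ i ∈ s, ((t i).2 : ℤ)) ^ f := by
    intro s
    classical
    induction s using Finset.induction_on with
    | empty => simp
    | insert a s ha ih =>
      rw [Finset.prod_insert ha, Finset.prod_insert ha, Finset.card_insert_of_notMem ha]
      have h2 := hK _ (ht a)
      have h3 : (((t a).1 : ℤ) * ∏ i ∈ s, ((t i).1 : ℤ)) ^ e -
          κ ^ (s.card + 1) * (((t a).2 : ℤ) * ∏ i ∈ s, ((t i).2 : ℤ)) ^ f =
          (((t a).1 : ℤ) ^ e - κ * ((t a).2 : ℤ) ^ f) * (∏ i ∈ s, ((t i).1 : ℤ)) ^ e +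
          (κ * ((t a).2 : ℤ) ^ f) * ((∏ i ∈ s, ((t i).1 : ℤ)) ^ e -
            κ ^ s.card * (∏ i ∈ s, ((t i).2 : ℤ)) ^ f) := by
        rw [mul_pow, mul_pow]
        ring
      rw [h3]
      exact dvd_add (dvd_mul_of_dvd_left h2 _) (dvd_mul_of_dvd_right ih _)
  have h2 := h1 Finset.univ
  rw [Finset.card_univ, Fintype.card_fin] at h2
  push_cast
  exact h2

theorem prod_rel' {k w e f : ℕ} {κ : ℤ} {K : Finset (ℕ × ℕ)}
    (hK : ∀ P ∈ K, (w : ℤ) ^ 3 ∣ (P.1 : ℤ) ^ e * (P.2 : ℤ) ^ f - κ) :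
    ∀ c ∈ prodSet k K, (w : ℤ) ^ 3 ∣ (c.1 : ℤ) ^ e * (c.2 : ℤ) ^ f - κ ^ k := by
  intro c hc
  obtain ⟨t, ht, rfl⟩ := Finset.mem_image.1 hc
  rw [Fintype.mem_piFinset] at ht
  have h1 : ∀ s : Finset (Fin k), (w : ℤ) ^ 3 ∣ (∏ i ∈ s, ((t i).1 : ℤ)) ^ e *
      (∏ i ∈ s, ((t i).2 : ℤ)) ^ f - κ ^ s.card := by
    intro s
    classical
    induction s using Finset.induction_on with
    | empty => simp
    | insert a s ha ih =>
      rw [Finset.prod_insert ha, Finset.prod_insert ha, Finset.card_insert_of_notMem ha]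
      have h2 := hK _ (ht a)
      have h3 : (((t a).1 : ℤ) * ∏ i ∈ s, ((t i).1 : ℤ)) ^ e *
          (((t a).2 : ℤ) * ∏ i ∈ s, ((t i).2 : ℤ)) ^ f - κ ^ (s.card + 1) =
          (((t a).1 : ℤ) ^ e * ((t a).2 : ℤ) ^ f - κ) *
            ((∏ i ∈ s, ((t i).1 : ℤ)) ^ e * (∏ i ∈ s, ((t i).2 : ℤ)) ^ f) +
          κ * ((∏ i ∈ s, ((t i).1 : ℤ)) ^ e * (∏ i ∈ s, ((t i).2 : ℤ)) ^ f - κ ^ s.card) := by
        rw [mul_pow, mul_pow]
        ring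
      rw [h3]
      exact dvd_add (dvd_mul_of_dvd_left h2 _) (dvd_mul_of_dvd_right ih _)
  have h2 := h1 Finset.univ
  rw [Finset.card_univ, Fintype.card_fin] at h2
  push_cast
  exact h2

theorem prod_bounds {k V W : ℕ} {K : Finset (ℕ × ℕ)}
    (hK : ∀ P ∈ K, 0 < P.1 ∧ 0 < P.2 ∧ P.1 ≤ V ∧ P.2 ≤ W) :
    ∀ c ∈ prodSet k K, 0 < c.1 ∧ 0 < c.2 ∧ c.1 ≤ V ^ k ∧ c.2 ≤ W ^ k := by
  intro c hc
  obtain ⟨t, ht, rfl⟩ := Finset.mem_image.1 hc
  rw [Fintype.mem_piFinset] at ht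
  show 0 < ∏ i, (t i).1 ∧ 0 < ∏ i, (t i).2 ∧ ∏ i, (t i).1 ≤ V ^ k ∧ ∏ i, (t i).2 ≤ W ^ k
  refine ⟨Finset.prod_pos fun i _ => (hK _ (ht i)).1,
    Finset.prod_pos fun i _ => (hK _ (ht i)).2.1, ?_, ?_⟩
  · have := Finset.prod_le_pow_card (Finset.univ : Finset (Fin k)) (fun i => (t i).1) V
      (fun i _ => (hK _ (ht i)).2.2.1)
    rwa [Finset.card_univ, Fintype.card_fin] at this
  · have := Finset.prod_le_pow_card (Finset.univ : Finset (Fin k)) (fun i => (t i).2) W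
      (fun i _ => (hK _ (ht i)).2.2.2)
    rwa [Finset.card_univ, Fintype.card_fin] at this

theorem prod_coprime {k w : ℕ} {K : Finset (ℕ × ℕ)}
    (hK : ∀ P ∈ K, Nat.Coprime P.1 w ∧ Nat.Coprime P.2 w) :
    ∀ c ∈ prodSet k K, Nat.Coprime c.1 w ∧ Nat.Coprime c.2 w := by
  intro c hc
  obtain ⟨t, ht, rfl⟩ := Finset.mem_image.1 hc
  rw [Fintype.mem_piFinset] at ht
  show Nat.Coprime (∏ i, (t i).1) w ∧ Nat.Coprime (∏ i, (t i).2) w
  exact ⟨Nat.Coprime.prod_left fun i _ => (hK _ (ht i)).1,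
    Nat.Coprime.prod_left fun i _ => (hK _ (ht i)).2⟩

/-- T1c -/
theorem t1c {e f : ℕ} (he : 0 < e) (hf : 0 < f) (hef : e ≠ f) {ε : ℝ} (hε : 0 < ε) :
    ∃ C : ℝ, 0 < C ∧ ∀ (w V : ℕ) (μ : ℝ) (κ : ℤ) (K : Finset (ℕ × ℕ)), Squarefree w →
      0 ≤ μ → μ ≤ 1 → (V : ℝ) ≤ (w : ℝ) ^ (1 + μ) →
      (∀ P ∈ K, 0 < P.1 ∧ 0 < P.2 ∧ P.1 ≤ V ∧ P.2 ≤ V ∧ Nat.Coprime P.1 w ∧
        Nat.Coprime P.2 w ∧ (w : ℤ) ^ 3 ∣ (P.1 : ℤ) ^ e - κ * (P.2 : ℤ) ^ f) →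
      (K.card : ℝ) ≤ C * (w : ℝ) ^ (3 / 4 + 2 * μ + ε) := by
  set δ : ℝ := ε / 17 with hδ
  have hδ0 : 0 < δ := by positivity
  obtain ⟨C, hC, haux⟩ := t1c_aux he f hδ0
  obtain ⟨C2, hC2, hdiv⟩ := Pool.Agent.Helper94.Abc.divisor_bound hδ0
  set N : ℕ := 2 * e * f * ((e : ℤ) - f).natAbs with hN
  have hN0 : 0 < N := by
    have : 0 < ((e : ℤ) - f).natAbs := Int.natAbs_pos.2 (by omega)
    positivity
  have hN1 : (1 : ℝ) ≤ N := by exact_mod_cast hN0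
  refine ⟨√(4 * (N : ℝ) ^ 8 * C * C2 ^ 4), by positivity, ?_⟩
  intro w V μ κ K hw hμ0 hμ1 hV hK
  obtain ⟨w', hw'0, hdvd, hww', hcop, -⟩ := prime_part hw hN0
  have hw0 : 0 < w := Nat.pos_of_ne_zero hw.ne_zero
  have hwR : (0 : ℝ) < w := by exact_mod_cast hw0
  have hw1 : (1 : ℝ) ≤ w := by exact_mod_cast hw0
  have hwR' : (0 : ℝ) < w' := by exact_mod_cast hw'0
  have hw1' : (1 : ℝ) ≤ w' := by exact_mod_cast hw'0
  have hle : (w' : ℝ) ≤ w := by exact_mod_cast Nat.le_of_dvd hw0 hdvd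
  have hwN : (w : ℝ) ≤ N * w' := by exact_mod_cast hww'
  -- the products
  have hb := prod_bounds (k := 2) (K := K) (V := V) (W := V)
    (fun P hP => ⟨(hK P hP).1, (hK P hP).2.1, (hK P hP).2.2.1, (hK P hP).2.2.2.1⟩)
  have hc := prod_coprime (k := 2) (w := w') (K := K)
    (fun P hP => ⟨(hK P hP).2.2.2.2.1.coprime_dvd_right hdvd,
      (hK P hP).2.2.2.2.2.1.coprime_dvd_right hdvd⟩)
  have hr := prod_rel (k := 2) (w := w') (e := e) (f := f) (κ := κ) (K := K)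
    (fun P hP => (pow_dvd_pow_of_dvd (Int.natCast_dvd_natCast.2 hdvd) 3).trans
      (hK P hP).2.2.2.2.2.2)
  have h1 := haux w' (V ^ 2) (κ ^ 2) (prodSet 2 K) hw'0 (coprime_of_nat hcop)
    (fun c hcc => ⟨(hb c hcc).2.2.1, (hb c hcc).2.2.2, (hc c hcc).1, (hc c hcc).2, hr c hcc⟩)
  have hVw : (V : ℝ) ≤ N ^ 2 * (w' : ℝ) ^ (1 + μ) := by
    calc (V : ℝ) ≤ (w : ℝ) ^ (1 + μ) := hV
      _ ≤ (N * w' : ℝ) ^ (1 + μ) := Real.rpow_le_rpow hwR.le hwN (by linarith)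
      _ = (N : ℝ) ^ (1 + μ) * (w' : ℝ) ^ (1 + μ) := Real.mul_rpow (by positivity) hwR'.le
      _ ≤ N ^ 2 * (w' : ℝ) ^ (1 + μ) := by
          refine mul_le_mul_of_nonneg_right ?_ (by positivity)
          calc (N : ℝ) ^ (1 + μ) ≤ (N : ℝ) ^ (2 : ℝ) :=
                Real.rpow_le_rpow_of_exponent_le hN1 (by linarith)
            _ = N ^ 2 := by norm_cast
  have h2 : ((V ^ 2 : ℕ) : ℝ) / (w' : ℝ) ^ 2 + 1 ≤ 2 * N ^ 4 * (w' : ℝ) ^ (2 * μ) := by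
    have h3 : ((V ^ 2 : ℕ) : ℝ) ≤ N ^ 4 * ((w' : ℝ) ^ 2 * (w' : ℝ) ^ (2 * μ)) := by
      push_cast
      calc (V : ℝ) ^ 2 ≤ (N ^ 2 * (w' : ℝ) ^ (1 + μ)) ^ 2 :=
            pow_le_pow_left₀ (Nat.cast_nonneg _) hVw 2
        _ = N ^ 4 * ((w' : ℝ) ^ 2 * (w' : ℝ) ^ (2 * μ)) := by
            rw [Real.rpow_add hwR', Real.rpow_one]
            have h4 : (w' : ℝ) ^ (2 * μ) = ((w' : ℝ) ^ μ) ^ 2 := by
              rw [mul_comm, Real.rpow_mul hwR'.le]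
              norm_cast
            rw [h4]
            ring
    have h4 : ((V ^ 2 : ℕ) : ℝ) / (w' : ℝ) ^ 2 ≤ N ^ 4 * (w' : ℝ) ^ (2 * μ) := by
      rw [div_le_iff₀ (by positivity)]
      calc ((V ^ 2 : ℕ) : ℝ) ≤ N ^ 4 * ((w' : ℝ) ^ 2 * (w' : ℝ) ^ (2 * μ)) := h3
        _ = _ := by ring
    have h5 : (1 : ℝ) ≤ N ^ 4 * (w' : ℝ) ^ (2 * μ) := by
      have h6 : (1 : ℝ) ≤ (N : ℝ) ^ 4 := one_le_pow₀ hN1
      have h7 : (1 : ℝ) ≤ (w' : ℝ) ^ (2 * μ) := Real.one_le_rpow hw1' (by positivity)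
      nlinarith
    linarith
  have h3 : ((prodSet 2 K).card : ℝ) ≤ 4 * N ^ 8 * C * (w : ℝ) ^ (3 / 2 + 4 * μ + δ) := by
    calc ((prodSet 2 K).card : ℝ) ≤
        C * (w' : ℝ) ^ (3 / 2 + δ) * (((V ^ 2 : ℕ) : ℝ) / (w' : ℝ) ^ 2 + 1) ^ 2 := h1
      _ ≤ C * (w' : ℝ) ^ (3 / 2 + δ) * (2 * N ^ 4 * (w' : ℝ) ^ (2 * μ)) ^ 2 :=
          mul_le_mul_of_nonneg_left (pow_le_pow_left₀ (by positivity) h2 2) (by positivity)
      _ = 4 * N ^ 8 * C * (w' : ℝ) ^ (3 / 2 + 4 * μ + δ) := by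
          have h4 : (w' : ℝ) ^ (3 / 2 + 4 * μ + δ) =
              (w' : ℝ) ^ (3 / 2 + δ) * ((w' : ℝ) ^ (2 * μ)) ^ 2 := by
            have h5 : ((w' : ℝ) ^ (2 * μ)) ^ 2 = (w' : ℝ) ^ (4 * μ) := by
              rw [← Real.rpow_natCast, ← Real.rpow_mul hwR'.le]
              congr 1
              push_cast
              ring
            rw [h5, ← Real.rpow_add hwR']
            congr 1
            ring
          rw [h4]
          ring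
      _ ≤ 4 * N ^ 8 * C * (w : ℝ) ^ (3 / 2 + 4 * μ + δ) :=
          mul_le_mul_of_nonneg_left
            (Real.rpow_le_rpow hwR'.le hle (by linarith)) (by positivity)
  -- representations
  have hVw4 : ((V ^ 2 : ℕ) : ℝ) ≤ (w : ℝ) ^ (4 : ℝ) := by
    push_cast
    calc (V : ℝ) ^ 2 ≤ ((w : ℝ) ^ (1 + μ)) ^ 2 := pow_le_pow_left₀ (Nat.cast_nonneg _) hV 2
      _ ≤ ((w : ℝ) ^ (2 : ℝ)) ^ 2 :=
          pow_le_pow_left₀ (by positivity)
            (Real.rpow_le_rpow_of_exponent_le hw1 (by linarith)) 2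
      _ = (w : ℝ) ^ (4 : ℝ) := by
          norm_cast
          ring
  have hdd : ∀ x : ℕ, 0 < x → x ≤ V ^ 2 → (x.divisors.card : ℝ) ≤ C2 * (w : ℝ) ^ (4 * δ) := by
    intro x hx0 hx
    calc (x.divisors.card : ℝ) ≤ C2 * (x : ℝ) ^ δ := hdiv x hx0.ne'
      _ ≤ C2 * ((w : ℝ) ^ (4 : ℝ)) ^ δ := by
          refine mul_le_mul_of_nonneg_left (Real.rpow_le_rpow (Nat.cast_nonneg _) ?_ hδ0.le)
            (by positivity)
          exact (show (x : ℝ) ≤ ((V ^ 2 : ℕ) : ℝ) by exact_mod_cast hx).trans hVw4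
      _ = C2 * (w : ℝ) ^ (4 * δ) := by rw [← Real.rpow_mul hwR.le]
  have h4 := prod_card 2 K (fun P hP => ⟨(hK P hP).1, (hK P hP).2.1⟩)
    (C2 ^ 2 * (w : ℝ) ^ (8 * δ)) (fun c hcc => by
      obtain ⟨k1, k2, k3, k4⟩ := hb c hcc
      calc (c.1.divisors.card : ℝ) * c.2.divisors.card ≤
          (C2 * (w : ℝ) ^ (4 * δ)) * (C2 * (w : ℝ) ^ (4 * δ)) :=
            mul_le_mul (hdd _ k1 k3) (hdd _ k2 k4) (Nat.cast_nonneg _) (by positivity)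
        _ = C2 ^ 2 * ((w : ℝ) ^ (4 * δ) * (w : ℝ) ^ (4 * δ)) := by ring
        _ = C2 ^ 2 * (w : ℝ) ^ (8 * δ) := by
            rw [← Real.rpow_add hwR]
            congr 2
            ring)
  have h5 : (K.card : ℝ) ^ 2 ≤
      (√(4 * (N : ℝ) ^ 8 * C * C2 ^ 4) * (w : ℝ) ^ (3 / 4 + 2 * μ + ε)) ^ 2 := by
    calc (K.card : ℝ) ^ 2 ≤ (prodSet 2 K).card * (C2 ^ 2 * (w : ℝ) ^ (8 * δ)) ^ 2 := h4
      _ ≤ (4 * N ^ 8 * C * (w : ℝ) ^ (3 / 2 + 4 * μ + δ)) * (C2 ^ 2 * (w : ℝ) ^ (8 * δ)) ^ 2 :=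
          mul_le_mul_of_nonneg_right h3 (by positivity)
      _ = (4 * (N : ℝ) ^ 8 * C * C2 ^ 4) * (w : ℝ) ^ (3 / 2 + 4 * μ + ε) := by
          have h6 : ((w : ℝ) ^ (8 * δ)) ^ 2 = (w : ℝ) ^ (16 * δ) := by
            rw [← Real.rpow_natCast, ← Real.rpow_mul hwR.le]
            congr 1
            push_cast
            ring
          have h7 : (w : ℝ) ^ (3 / 2 + 4 * μ + ε) =
              (w : ℝ) ^ (3 / 2 + 4 * μ + δ) * (w : ℝ) ^ (16 * δ) := by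
            rw [← Real.rpow_add hwR]
            congr 1
            rw [hδ]
            ring
          rw [mul_pow, h6, h7]
          ring
      _ ≤ (4 * (N : ℝ) ^ 8 * C * C2 ^ 4) * (w : ℝ) ^ (2 * (3 / 4 + 2 * μ + ε)) :=
          mul_le_mul_of_nonneg_left
            (Real.rpow_le_rpow_of_exponent_le hw1 (by linarith)) (by positivity)
      _ = _ := by
          rw [mul_pow, Real.sq_sqrt (by positivity), ← Real.rpow_natCast ((w : ℝ) ^ _),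
            ← Real.rpow_mul hwR.le]
          congr 2
          push_cast
          ring
  exact le_of_sq_le_sq h5 (by positivity)

end Pool.Agent.Helper69.EN
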