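import Pool.Agent.Helper69.EN.Class
import Pool.Agent.Helper26.Abc2.Roots
import Pool.Agent.Helper94.Abc.Basic

/-!
Points of the curves `n ^ e = κ R ^ f` and `n ^ e R ^ f = κ` modulo `w ^ 3` in boxes of side at
most `w ^ 2`.
-/

set_option autoImplicit false

namespace Pool.Agent.Helper69.EN

open Finset

/-- second order expansion of a power -/
theorem expand (x y : ℤ) (e : ℕ) :
    ∃ c : ℤ, 2 * x ^ 2 * (x + y) ^ e =
      x ^ e * (2 * x ^ 2 + 2 * e * x * y + e * (e - 1) * y ^ 2) + y ^ 3 * c := by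
  induction e with
  | zero => exact ⟨0, by simp⟩
  | succ e ih =>
    obtain ⟨c, hc⟩ := ih
    refine ⟨(x + y) * c + e * (e - 1) * x ^ e, ?_⟩
    have h1 : 2 * x ^ 2 * (x + y) ^ (e + 1) = (x + y) * (2 * x ^ 2 * (x + y) ^ e) := by ring
    rw [h1, hc]
    push_cast
    ring

theorem rel_plus {w : ℕ} (hw : 0 < w) (h2 : IsCoprime (2 : ℤ) w) {e f : ℕ} {κ n R D D' : ℤ}
    (hn : IsCoprime n (w : ℤ)) (hR : IsCoprime R (w : ℤ))
    (h : (w : ℤ) ^ 3 ∣ n ^ e - κ * R ^ f)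
    (h' : (w : ℤ) ^ 3 ∣ (n + w * D) ^ e - κ * (R + w * D') ^ f) :
    (w : ℤ) ^ 2 ∣ (e : ℤ) * (2 * n * D - w * D ^ 2) * R ^ 2 -
      (f : ℤ) * (2 * R * D' - w * D' ^ 2) * n ^ 2 := by
  have hw' : (w : ℤ) ≠ 0 := by exact_mod_cast hw.ne'
  obtain ⟨c, hc⟩ := expand n (w * D) e
  obtain ⟨c', hc'⟩ := expand R (w * D') f
  obtain ⟨u, hu⟩ := h
  obtain ⟨u', hu'⟩ := h'
  set X : ℤ := R ^ 2 * (2 * e * n * D + e * (e - 1) * w * D ^ 2) -
    n ^ 2 * (2 * f * R * D' + f * (f - 1) * w * D' ^ 2) with hX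
  have h3 : (w : ℤ) ^ 3 ∣ w * ((2 * n ^ e * R ^ f) * X) := by
    refine ⟨4 * n ^ 2 * R ^ 2 * (u' * R ^ f - u * (R + w * D') ^ f) -
      (D ^ 3 * c * (2 * R ^ 2 * R ^ f) - D' ^ 3 * c' * (2 * n ^ 2 * n ^ e)), ?_⟩
    have h4 : (n + w * D) ^ e = κ * (R + w * D') ^ f + w ^ 3 * u' := by linarith
    have h5 : n ^ e = κ * R ^ f + w ^ 3 * u := by linarith
    have h6 : 4 * n ^ 2 * R ^ 2 * ((n + w * D) ^ e * R ^ f - n ^ e * (R + w * D') ^ f) =
        w ^ 3 * (4 * n ^ 2 * R ^ 2 * (u' * R ^ f - u * (R + w * D') ^ f)) := by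
      rw [h4, h5]
      ring
    have h7 : 4 * n ^ 2 * R ^ 2 * ((n + w * D) ^ e * R ^ f - n ^ e * (R + w * D') ^ f) =
        (2 * n ^ 2 * (n + w * D) ^ e) * (2 * R ^ 2 * R ^ f) -
        (2 * n ^ 2 * n ^ e) * (2 * R ^ 2 * (R + w * D') ^ f) := by ring
    rw [h7, hc, hc'] at h6
    rw [hX]
    linear_combination h6
  have h4 : (w : ℤ) ^ 2 ∣ (2 * n ^ e * R ^ f) * X := by
    have h5 : (w : ℤ) * w ^ 2 ∣ w * ((2 * n ^ e * R ^ f) * X) := by
      have : (w : ℤ) * w ^ 2 = w ^ 3 := by ring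
      rwa [this]
    exact Int.dvd_of_mul_dvd_mul_left hw' h5
  have h5 : IsCoprime (2 * n ^ e * R ^ f) ((w : ℤ) ^ 2) :=
    ((h2.mul_left hn.pow_left).mul_left hR.pow_left).pow_right
  have h6 : (w : ℤ) ^ 2 ∣ X := h5.symm.dvd_of_dvd_mul_left h4
  have h7 : (w : ℤ) ∣ e * D * R - f * D' * n := by
    have h8 : (w : ℤ) ∣ (2 * n * R) * (e * D * R - f * D' * n) := by
      have h9 : (2 * n * R) * (e * D * R - f * D' * n) = X -
          w * (R ^ 2 * (e * (e - 1) * D ^ 2) - n ^ 2 * (f * (f - 1) * D' ^ 2)) := by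
        rw [hX]
        ring
      rw [h9]
      exact dvd_sub ((dvd_pow_self _ two_ne_zero).trans h6) (dvd_mul_right _ _)
    exact ((h2.mul_left hn).mul_left hR).symm.dvd_of_dvd_mul_left h8
  have h8 : (e : ℤ) * (2 * n * D - w * D ^ 2) * R ^ 2 - f * (2 * R * D' - w * D' ^ 2) * n ^ 2 =
      X - w * (e * D * R - f * D' * n) * (e * D * R + f * D' * n) := by
    rw [hX]
    ring
  rw [h8]
  refine dvd_sub h6 (dvd_mul_of_dvd_left ?_ _)
  rw [pow_two]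
  exact mul_dvd_mul_left _ h7

theorem rel_minus {w : ℕ} (hw : 0 < w) (h2 : IsCoprime (2 : ℤ) w) {e f : ℕ} {κ n R D D' : ℤ}
    (hn : IsCoprime n (w : ℤ)) (hR : IsCoprime R (w : ℤ))
    (h : (w : ℤ) ^ 3 ∣ n ^ e * R ^ f - κ)
    (h' : (w : ℤ) ^ 3 ∣ (n + w * D) ^ e * (R + w * D') ^ f - κ) :
    (w : ℤ) ^ 2 ∣ (e : ℤ) * (2 * n * D - w * D ^ 2) * R ^ 2 -
      (-(f : ℤ)) * (2 * R * D' - w * D' ^ 2) * n ^ 2 := by
  have hw' : (w : ℤ) ≠ 0 := by exact_mod_cast hw.ne'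
  obtain ⟨c, hc⟩ := expand n (w * D) e
  obtain ⟨c', hc'⟩ := expand R (w * D') f
  obtain ⟨u, hu⟩ := h
  obtain ⟨u', hu'⟩ := h'
  set X : ℤ := 2 * n ^ 2 * f * R * D' + n ^ 2 * f * (f - 1) * w * D' ^ 2 +
    2 * e * n * D * R ^ 2 + 2 * e * f * n * R * w * D * D' + e * (e - 1) * w * D ^ 2 * R ^ 2
    with hX
  have h3 : (w : ℤ) ^ 3 ∣ w * ((2 * n ^ e * R ^ f) * X) := by
    set a : ℤ := 2 * n ^ 2 + 2 * e * n * (w * D) + e * (e - 1) * (w * D) ^ 2 with ha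
    set b : ℤ := 2 * R ^ 2 + 2 * f * R * (w * D') + f * (f - 1) * (w * D') ^ 2 with hb
    refine ⟨4 * n ^ 2 * R ^ 2 * (u' - u) -
      (n ^ e * a * (D' ^ 3 * c') + R ^ f * b * (D ^ 3 * c) + w ^ 3 * D ^ 3 * D' ^ 3 * c * c') -
      n ^ e * R ^ f * (2 * e * n * D * f * (f - 1) * D' ^ 2 +
        e * (e - 1) * D ^ 2 * (2 * f * R * D') + e * (e - 1) * D ^ 2 * (f * (f - 1)) * w * D' ^ 2),
      ?_⟩
    have h6 : 4 * n ^ 2 * R ^ 2 * ((n + w * D) ^ e * (R + w * D') ^ f - n ^ e * R ^ f) =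
        w ^ 3 * (4 * n ^ 2 * R ^ 2 * (u' - u)) := by
      linear_combination 4 * n ^ 2 * R ^ 2 * (hu' - hu)
    have h7 : 4 * n ^ 2 * R ^ 2 * ((n + w * D) ^ e * (R + w * D') ^ f - n ^ e * R ^ f) =
        (2 * n ^ 2 * (n + w * D) ^ e) * (2 * R ^ 2 * (R + w * D') ^ f) -
        4 * n ^ 2 * R ^ 2 * (n ^ e * R ^ f) := by ring
    rw [h7, hc, hc'] at h6
    rw [hX]
    linear_combination h6
  have h4 : (w : ℤ) ^ 2 ∣ (2 * n ^ e * R ^ f) * X := by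
    have h5 : (w : ℤ) * w ^ 2 ∣ w * ((2 * n ^ e * R ^ f) * X) := by
      have : (w : ℤ) * w ^ 2 = w ^ 3 := by ring
      rwa [this]
    exact Int.dvd_of_mul_dvd_mul_left hw' h5
  have h5 : IsCoprime (2 * n ^ e * R ^ f) ((w : ℤ) ^ 2) :=
    ((h2.mul_left hn.pow_left).mul_left hR.pow_left).pow_right
  have h6 : (w : ℤ) ^ 2 ∣ X := h5.symm.dvd_of_dvd_mul_left h4
  have h7 : (w : ℤ) ∣ e * D * R + f * D' * n := by
    have h8 : (w : ℤ) ∣ (2 * n * R) * (e * D * R + f * D' * n) := by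
      have h9 : (2 * n * R) * (e * D * R + f * D' * n) = X -
          w * (n ^ 2 * f * (f - 1) * D' ^ 2 + 2 * e * f * n * R * D * D' +
            e * (e - 1) * D ^ 2 * R ^ 2) := by
        rw [hX]
        ring
      rw [h9]
      exact dvd_sub ((dvd_pow_self _ two_ne_zero).trans h6) (dvd_mul_right _ _)
    exact ((h2.mul_left hn).mul_left hR).symm.dvd_of_dvd_mul_left h8
  have h8 : (e : ℤ) * (2 * n * D - w * D ^ 2) * R ^ 2 - (-(f : ℤ)) * (2 * R * D' - w * D' ^ 2) *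
      n ^ 2 = X - w * (e * D * R + f * D' * n) * (e * D * R + f * D' * n) := by
    rw [hX]
    ring
  rw [h8]
  refine dvd_sub h6 (dvd_mul_of_dvd_left ?_ _)
  rw [pow_two]
  exact mul_dvd_mul_left _ h7

theorem le_one_add_sqrt {k M : ℝ} (h : k ^ 2 ≤ k + M) (hM : 0 ≤ M) : k ≤ 1 + √M := by
  by_contra hc
  have h1 := Real.sqrt_nonneg M
  have h2 := Real.sq_sqrt hM
  nlinarith [not_le.1 hc]

theorem t1_core {e : ℕ} (he : 0 < e) {ε : ℝ} (hε : 0 < ε) :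
    ∃ C : ℝ, 0 < C ∧ ∀ (w : ℕ) (f a b : ℤ) (A : ℕ) (K : Finset (ℤ × ℤ)), 0 < w →
      IsCoprime (2 * (e : ℤ) * f * (e - f)) (w : ℤ) → A ≤ w ^ 2 →
      (∀ P ∈ K, a ≤ P.1 ∧ P.1 < a + A) → (∀ P ∈ K, b ≤ P.2 ∧ P.2 < b + (w : ℤ) ^ 2) →
      (∀ P ∈ K, IsCoprime P.1 (w : ℤ)) → (∀ P ∈ K, IsCoprime P.2 (w : ℤ)) →
      (∀ P ∈ K, ∀ Q ∈ K, (w : ℤ) ∣ Q.1 - P.1 → (w : ℤ) ∣ Q.2 - P.2 → Rel w e f P Q) →
      (∀ P ∈ K, ∀ Q ∈ K, (w : ℤ) ∣ Q.2 - P.2 → (w : ℤ) ∣ Q.1 ^ e - P.1 ^ e) →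
      (K.card : ℝ) ≤ C * (w : ℝ) ^ ε * (w + √(w * A)) := by
  classical
  obtain ⟨C1, hC1, hroot⟩ := Pool.Agent.Helper26.Abc2.card_roots_int he (half_pos hε)
  obtain ⟨C2, hC2, hdiv⟩ := Pool.Agent.Helper94.Abc.divisor_bound (half_pos hε)
  refine ⟨2 * C1 * C2, by positivity, ?_⟩
  intro w f a b A K hw hcop hA m1 m2 c1 c2 hrel hcl
  have hw' : (0 : ℤ) < w := by exact_mod_cast hw
  have hwR : (0 : ℝ) < w := by exact_mod_cast hw
  have hw1 : (1 : ℝ) ≤ w := by exact_mod_cast hw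
  set φ : ℤ × ℤ → ℤ × ℤ := fun P => (P.1 % w, P.2 % w) with hφ
  set L : ℝ := 1 + √(4 * (A / w) * w.divisors.card) with hL
  -- one class
  have hclass : ∀ c ∈ K.image φ, (((K.filter fun P => φ P = c).card : ℕ) : ℝ) ≤ L := by
    intro c _
    have hC : Cls w e f a b A (K.filter fun P => φ P = c) := by
      refine ⟨hw, hcop, hA, ?_, ?_, ?_, ?_, ?_⟩
      · exact fun P hP => m1 P (Finset.mem_filter.1 hP).1
      · exact fun P hP => m2 P (Finset.mem_filter.1 hP).1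
      · exact fun P hP => c1 P (Finset.mem_filter.1 hP).1
      · exact fun P hP => c2 P (Finset.mem_filter.1 hP).1
      · intro P hP Q hQ
        rw [Finset.mem_filter] at hP hQ
        have h1 : φ P = φ Q := hP.2.trans hQ.2.symm
        have h2 : P.1 % w = Q.1 % w := congrArg Prod.fst h1
        have h3 : P.2 % w = Q.2 % w := congrArg Prod.snd h1
        exact hrel P hP.1 Q hQ.1 (Int.modEq_iff_dvd.1 h2) (Int.modEq_iff_dvd.1 h3)
    have h1 := card_class hC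
    set k := (K.filter fun P => φ P = c).card with hk
    have h2 : ((k : ℝ)) ^ 2 ≤ k + 4 * (A / w) * w.divisors.card := by
      have h3 : ((k ^ 2 : ℕ) : ℝ) ≤ ((k + 4 * (A / w * w.divisors.card) : ℕ) : ℝ) := by
        exact_mod_cast h1
      push_cast at h3
      have h4 : ((A / w : ℕ) : ℝ) ≤ (A : ℝ) / w := Nat.cast_div_le
      have h5 : (0 : ℝ) ≤ w.divisors.card := Nat.cast_nonneg _
      nlinarith [mul_le_mul_of_nonneg_right h4 h5]
    exact le_one_add_sqrt h2 (by positivity)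
  -- the number of classes
  have hnum : ((K.image φ).card : ℝ) ≤ w * (C1 * (w : ℝ) ^ (ε / 2)) := by
    rw [Finset.card_eq_sum_card_image Prod.snd (K.image φ)]
    push_cast
    have h1 : ∀ y ∈ (K.image φ).image Prod.snd,
        ((((K.image φ).filter fun c => c.2 = y).card : ℕ) : ℝ) ≤ C1 * (w : ℝ) ^ (ε / 2) := by
      intro y hy
      obtain ⟨c0, hc0, hc0y⟩ := Finset.mem_image.1 hy
      obtain ⟨P0, hP0, hP0c⟩ := Finset.mem_image.1 hc0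
      have h2 := hroot w (P0.1 ^ e) hw (c1 P0 hP0).pow_left
      refine le_trans ?_ h2
      have h3 : ((K.image φ).filter fun c => c.2 = y).card ≤
          ((Finset.range w).filter (fun x : ℕ => (w : ℤ) ∣ (x : ℤ) ^ e - P0.1 ^ e)).card := by
        refine Finset.card_le_card_of_injOn (fun c => c.1.toNat) ?_ ?_
        · intro c hc
          rw [Finset.coe_filter, Set.mem_ofPred_eq] at hc
          obtain ⟨P, hP, hPc⟩ := Finset.mem_image.1 hc.1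
          have h4 : 0 ≤ c.1 := by
            rw [← hPc]
            exact Int.emod_nonneg _ hw'.ne'
          have h5 : c.1 < w := by
            rw [← hPc]
            exact Int.emod_lt_of_pos _ hw'
          rw [Finset.coe_filter, Set.mem_ofPred_eq, Finset.mem_range]
          show c.1.toNat < w ∧ (w : ℤ) ∣ ((c.1.toNat : ℕ) : ℤ) ^ e - P0.1 ^ e
          refine ⟨by omega, ?_⟩
          rw [Int.toNat_of_nonneg h4]
          have h6 : (w : ℤ) ∣ P.2 - P0.2 := by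
            have h7 : P0.2 % w = P.2 % w := by
              have h8 : c0.2 = P0.2 % w := by rw [← hP0c]
              have h9 : c.2 = P.2 % w := by rw [← hPc]
              rw [← h8, ← h9, hc0y, hc.2]
            exact Int.modEq_iff_dvd.1 h7
          have h7 := hcl P0 hP0 P hP h6
          have h8 : (w : ℤ) ∣ c.1 ^ e - P.1 ^ e := by
            have h9 : c.1 ≡ P.1 [ZMOD w] := by
              rw [← hPc]
              exact Int.mod_modEq _ _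
            exact (Int.modEq_iff_dvd.1 (h9.pow e).symm)
          have h9 : c.1 ^ e - P0.1 ^ e = (c.1 ^ e - P.1 ^ e) + (P.1 ^ e - P0.1 ^ e) := by ring
          rw [h9]
          exact dvd_add h8 h7
        · intro c hc c' hc' hcc
          rw [Finset.coe_filter, Set.mem_ofPred_eq] at hc hc'
          obtain ⟨P, hP, hPc⟩ := Finset.mem_image.1 hc.1
          obtain ⟨P', hP', hPc'⟩ := Finset.mem_image.1 hc'.1
          have h4 : 0 ≤ c.1 := by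
            rw [← hPc]
            exact Int.emod_nonneg _ hw'.ne'
          have h4' : 0 ≤ c'.1 := by
            rw [← hPc']
            exact Int.emod_nonneg _ hw'.ne'
          simp only at hcc
          refine Prod.ext ?_ (hc.2.trans hc'.2.symm)
          omega
      exact_mod_cast h3
    have h2 : (((K.image φ).image Prod.snd).card : ℝ) ≤ w := by
      have h3 : ((K.image φ).image Prod.snd).card ≤ (Finset.Ico (0 : ℤ) w).card := by
        refine Finset.card_le_card ?_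
        intro y hy
        obtain ⟨c0, hc0, rfl⟩ := Finset.mem_image.1 hy
        obtain ⟨P0, hP0, rfl⟩ := Finset.mem_image.1 hc0
        rw [Finset.mem_Ico]
        exact ⟨Int.emod_nonneg _ hw'.ne', Int.emod_lt_of_pos _ hw'⟩
      rw [Int.card_Ico] at h3
      have h4 : ((w : ℤ) - 0).toNat = w := by simp
      rw [h4] at h3
      exact_mod_cast h3
    calc _ ≤ ∑ y ∈ (K.image φ).image Prod.snd, C1 * (w : ℝ) ^ (ε / 2) := Finset.sum_le_sum h1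
      _ = (((K.image φ).image Prod.snd).card : ℝ) * (C1 * (w : ℝ) ^ (ε / 2)) := by
          rw [Finset.sum_const, nsmul_eq_mul]
      _ ≤ w * (C1 * (w : ℝ) ^ (ε / 2)) := mul_le_mul_of_nonneg_right h2 (by positivity)
  have hKL : (K.card : ℝ) ≤ w * (C1 * (w : ℝ) ^ (ε / 2)) * L := by
    rw [Finset.card_eq_sum_card_image φ K]
    push_cast
    calc _ ≤ ∑ c ∈ K.image φ, L := Finset.sum_le_sum hclass
      _ = ((K.image φ).card : ℝ) * L := by rw [Finset.sum_const, nsmul_eq_mul]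
      _ ≤ w * (C1 * (w : ℝ) ^ (ε / 2)) * L :=
          mul_le_mul_of_nonneg_right hnum (by rw [hL]; positivity)
  -- the final estimate
  have hd := hdiv w hw.ne'
  have hwe : (1 : ℝ) ≤ (w : ℝ) ^ (ε / 2) := Real.one_le_rpow hw1 (half_pos hε).le
  have hCw : 1 ≤ C2 * (w : ℝ) ^ (ε / 2) := by nlinarith
  have hL2 : w * L ≤ 2 * C2 * (w : ℝ) ^ (ε / 2) * (w + √(w * A)) := by
    have h1 : w * √(4 * (A / w) * w.divisors.card) ≤
        2 * (C2 * (w : ℝ) ^ (ε / 2)) * √(w * A) := by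
      have h2 : (w : ℝ) * √(4 * (A / w) * w.divisors.card) =
          √((w : ℝ) ^ 2 * (4 * (A / w) * w.divisors.card)) := by
        rw [Real.sqrt_mul (sq_nonneg _), Real.sqrt_sq hwR.le]
      have h3 : 2 * (C2 * (w : ℝ) ^ (ε / 2)) * √(w * A) =
          √((2 * (C2 * (w : ℝ) ^ (ε / 2))) ^ 2 * (w * A)) := by
        rw [Real.sqrt_mul (sq_nonneg _), Real.sqrt_sq (by positivity)]
      rw [h2, h3]
      apply Real.sqrt_le_sqrt
      have h4 : (w : ℝ) ^ 2 * (4 * (A / w) * w.divisors.card) =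
          4 * (w * A) * w.divisors.card := by
        field_simp
      rw [h4]
      have h5 : (w.divisors.card : ℝ) ≤ (C2 * (w : ℝ) ^ (ε / 2)) ^ 2 := by
        calc (w.divisors.card : ℝ) ≤ C2 * (w : ℝ) ^ (ε / 2) := hd
          _ = (C2 * (w : ℝ) ^ (ε / 2)) * 1 := (mul_one _).symm
          _ ≤ (C2 * (w : ℝ) ^ (ε / 2)) * (C2 * (w : ℝ) ^ (ε / 2)) :=
              mul_le_mul_of_nonneg_left hCw (by positivity)
          _ = _ := by ring
      calc 4 * (w * A : ℝ) * w.divisors.card ≤ 4 * (w * A) * (C2 * (w : ℝ) ^ (ε / 2)) ^ 2 :=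
            mul_le_mul_of_nonneg_left h5 (by positivity)
        _ = (2 * (C2 * (w : ℝ) ^ (ε / 2))) ^ 2 * (w * A) := by ring
    have h2 : (w : ℝ) ≤ 2 * (C2 * (w : ℝ) ^ (ε / 2)) * w := by nlinarith
    rw [hL, mul_add, mul_one]
    calc (w : ℝ) + w * √(4 * (A / w) * w.divisors.card) ≤
        2 * (C2 * (w : ℝ) ^ (ε / 2)) * w + 2 * (C2 * (w : ℝ) ^ (ε / 2)) * √(w * A) :=
          add_le_add h2 h1
      _ = _ := by ring
  have hsplit : (w : ℝ) ^ ε = (w : ℝ) ^ (ε / 2) * (w : ℝ) ^ (ε / 2) := by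
    rw [← Real.rpow_add hwR, add_halves]
  calc (K.card : ℝ) ≤ w * (C1 * (w : ℝ) ^ (ε / 2)) * L := hKL
    _ = (C1 * (w : ℝ) ^ (ε / 2)) * (w * L) := by ring
    _ ≤ (C1 * (w : ℝ) ^ (ε / 2)) * (2 * C2 * (w : ℝ) ^ (ε / 2) * (w + √(w * A))) :=
        mul_le_mul_of_nonneg_left hL2 (by positivity)
    _ = 2 * C1 * C2 * (w : ℝ) ^ ε * (w + √(w * A)) := by
        rw [hsplit]
        ring

/-- T1 for the curve `n ^ e = κ R ^ f` -/
theorem t1_plus {e : ℕ} (he : 0 < e) (f : ℕ) {ε : ℝ} (hε : 0 < ε) :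
    ∃ C : ℝ, 0 < C ∧ ∀ (w : ℕ) (κ a b : ℤ) (A : ℕ) (K : Finset (ℤ × ℤ)), 0 < w →
      IsCoprime (2 * (e : ℤ) * f * (e - f)) (w : ℤ) → A ≤ w ^ 2 →
      (∀ P ∈ K, a ≤ P.1 ∧ P.1 < a + A) → (∀ P ∈ K, b ≤ P.2 ∧ P.2 < b + (w : ℤ) ^ 2) →
      (∀ P ∈ K, IsCoprime P.1 (w : ℤ)) → (∀ P ∈ K, IsCoprime P.2 (w : ℤ)) →
      (∀ P ∈ K, (w : ℤ) ^ 3 ∣ P.1 ^ e - κ * P.2 ^ f) →
      (K.card : ℝ) ≤ C * (w : ℝ) ^ ε * (w + √(w * A)) := by
  obtain ⟨C, hC, h⟩ := t1_core he hε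
  refine ⟨C, hC, fun w κ a b A K hw hcop hA m1 m2 c1 c2 hK => ?_⟩
  refine h w f a b A K hw hcop hA m1 m2 c1 c2 ?_ ?_
  · rintro P hP Q hQ ⟨D, hD⟩ ⟨D', hD'⟩
    have e1 : Q.1 = P.1 + w * D := by linarith
    have e2 : Q.2 = P.2 + w * D' := by linarith
    refine ⟨D, D', e1, e2, ?_⟩
    have h2 := hK Q hQ
    rw [e1, e2] at h2
    exact rel_plus hw hcop.of_mul_left_left.of_mul_left_left.of_mul_left_left (c1 P hP) (c2 P hP)
      (hK P hP) h2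
  · intro P hP Q hQ hd
    have h1 : (w : ℤ) ∣ P.1 ^ e - κ * P.2 ^ f := (dvd_pow_self _ (by norm_num)).trans (hK P hP)
    have h2 : (w : ℤ) ∣ Q.1 ^ e - κ * Q.2 ^ f := (dvd_pow_self _ (by norm_num)).trans (hK Q hQ)
    have h3 : (w : ℤ) ∣ Q.2 ^ f - P.2 ^ f := hd.trans (sub_dvd_pow_sub_pow _ _ f)
    have h4 : Q.1 ^ e - P.1 ^ e = (Q.1 ^ e - κ * Q.2 ^ f) - (P.1 ^ e - κ * P.2 ^ f) +
        κ * (Q.2 ^ f - P.2 ^ f) := by ring
    rw [h4]
    exact dvd_add (dvd_sub h2 h1) (dvd_mul_of_dvd_right h3 _)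

/-- T1 for the curve `n ^ e R ^ f = κ` -/
theorem t1_minus {e : ℕ} (he : 0 < e) (f : ℕ) {ε : ℝ} (hε : 0 < ε) :
    ∃ C : ℝ, 0 < C ∧ ∀ (w : ℕ) (κ a b : ℤ) (A : ℕ) (K : Finset (ℤ × ℤ)), 0 < w →
      IsCoprime (2 * (e : ℤ) * f * (e + f)) (w : ℤ) → A ≤ w ^ 2 →
      (∀ P ∈ K, a ≤ P.1 ∧ P.1 < a + A) → (∀ P ∈ K, b ≤ P.2 ∧ P.2 < b + (w : ℤ) ^ 2) →
      (∀ P ∈ K, IsCoprime P.1 (w : ℤ)) → (∀ P ∈ K, IsCoprime P.2 (w : ℤ)) →
      (∀ P ∈ K, (w : ℤ) ^ 3 ∣ P.1 ^ e * P.2 ^ f - κ) →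
      (K.card : ℝ) ≤ C * (w : ℝ) ^ ε * (w + √(w * A)) := by
  obtain ⟨C, hC, h⟩ := t1_core he hε
  refine ⟨C, hC, fun w κ a b A K hw hcop hA m1 m2 c1 c2 hK => ?_⟩
  have hcop' : IsCoprime (2 * (e : ℤ) * (-(f : ℤ)) * (e - (-(f : ℤ)))) (w : ℤ) := by
    have h1 : 2 * (e : ℤ) * (-(f : ℤ)) * (e - (-(f : ℤ))) = -(2 * (e : ℤ) * f * (e + f)) := by
      ring
    rw [h1]
    exact hcop.neg_left
  refine h w (-(f : ℤ)) a b A K hw hcop' hA m1 m2 c1 c2 ?_ ?_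
  · rintro P hP Q hQ ⟨D, hD⟩ ⟨D', hD'⟩
    have e1 : Q.1 = P.1 + w * D := by linarith
    have e2 : Q.2 = P.2 + w * D' := by linarith
    refine ⟨D, D', e1, e2, ?_⟩
    have h2 := hK Q hQ
    rw [e1, e2] at h2
    exact rel_minus hw hcop.of_mul_left_left.of_mul_left_left.of_mul_left_left (c1 P hP) (c2 P hP)
      (hK P hP) h2
  · intro P hP Q hQ hd
    have h1 : (w : ℤ) ∣ P.1 ^ e * P.2 ^ f - κ := (dvd_pow_self _ (by norm_num)).trans (hK P hP)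
    have h2 : (w : ℤ) ∣ Q.1 ^ e * Q.2 ^ f - κ := (dvd_pow_self _ (by norm_num)).trans (hK Q hQ)
    have h3 : (w : ℤ) ∣ Q.2 ^ f - P.2 ^ f := hd.trans (sub_dvd_pow_sub_pow _ _ f)
    have h4 : (w : ℤ) ∣ P.2 ^ f * (Q.1 ^ e - P.1 ^ e) := by
      have h5 : P.2 ^ f * (Q.1 ^ e - P.1 ^ e) = (Q.1 ^ e * Q.2 ^ f - κ) - (P.1 ^ e * P.2 ^ f - κ) -
          Q.1 ^ e * (Q.2 ^ f - P.2 ^ f) := by ring
      rw [h5]
      exact dvd_sub (dvd_sub h2 h1) (dvd_mul_of_dvd_right h3 _)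
    exact ((c2 P hP).pow_left (m := f)).symm.dvd_of_dvd_mul_left h4

end Pool.Agent.Helper69.EN
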