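import Mathlib

/-!
Points of a curve modulo `w ^ 3` in one residue class modulo `w`: the counting argument.
-/

set_option autoImplicit false

namespace Pool.Agent.Helper69.EN

open Finset

/-- sum of greatest common divisors -/
theorem sum_gcd_le (Y w : ℕ) (hw : 0 < w) :
    ∑ D ∈ Finset.Ioc 0 Y, Nat.gcd D w ≤ Y * w.divisors.card := by
  calc ∑ D ∈ Finset.Ioc 0 Y, Nat.gcd D w
      ≤ ∑ D ∈ Finset.Ioc 0 Y, ∑ g ∈ w.divisors with g ∣ D, g := by
        refine Finset.sum_le_sum fun D _ => ?_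
        refine Finset.single_le_sum (f := fun g => g) (fun _ _ => Nat.zero_le _) ?_
        rw [Finset.mem_filter, Nat.mem_divisors]
        exact ⟨⟨Nat.gcd_dvd_right _ _, hw.ne'⟩, Nat.gcd_dvd_left _ _⟩
    _ = ∑ g ∈ w.divisors, ∑ D ∈ Finset.Ioc 0 Y with g ∣ D, g := by
        simp_rw [Finset.sum_filter]
        exact Finset.sum_comm
    _ ≤ ∑ g ∈ w.divisors, Y := by
        refine Finset.sum_le_sum fun g _ => ?_
        rw [Finset.sum_const, Nat.Ioc_filter_dvd_card_eq_div, smul_eq_mul]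
        exact Nat.div_mul_le_self Y g
    _ = Y * w.divisors.card := by
        rw [Finset.sum_const, smul_eq_mul, mul_comm]

/-- integers in an interval of length at most `m * g` which are congruent modulo `m` -/
theorem card_le_of_modEq {m g : ℕ} (hm : 0 < m) {a : ℤ} {A : ℕ} (hA : A ≤ m * g)
    (s : Finset ℤ) (hs : ∀ t ∈ s, a ≤ t ∧ t < a + A)
    (hc : ∀ t ∈ s, ∀ t' ∈ s, (m : ℤ) ∣ t' - t) : s.card ≤ g := by
  have hm' : (0 : ℤ) < m := by exact_mod_cast hm
  have h1 : s.card ≤ (Finset.Ico (0 : ℤ) g).card := by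
    refine Finset.card_le_card_of_injOn (fun t => (t - a) / m) ?_ ?_
    · intro t ht
      have h2 := hs t ht
      simp only [Finset.coe_Ico, Set.mem_Ico]
      constructor
      · exact Int.ediv_nonneg (by linarith [h2.1]) hm'.le
      · rw [Int.ediv_lt_iff_lt_mul hm']
        have h3 : (A : ℤ) ≤ m * g := by exact_mod_cast hA
        have h4 : (g : ℤ) * m = m * g := mul_comm _ _
        linarith [h2.2]
    · intro t ht t' ht' htt
      simp only at htt
      have h2 := Int.emod_add_mul_ediv (t - a) m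
      have h3 := Int.emod_add_mul_ediv (t' - a) m
      have h4 := Int.emod_nonneg (t - a) hm'.ne'
      have h5 := Int.emod_lt_of_pos (t - a) hm'
      have h6 := Int.emod_nonneg (t' - a) hm'.ne'
      have h7 := Int.emod_lt_of_pos (t' - a) hm'
      rw [htt] at h2
      obtain ⟨c, hcc⟩ := hc t ht t' ht'
      have h8 : t' - t = (t' - a) % m - (t - a) % m := by linarith
      have h9 : (m : ℤ) * c < m * 1 := by linarith
      have h10 : (m : ℤ) * (-1) < m * c := by linarith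
      have h11 : c < 1 := lt_of_mul_lt_mul_left h9 hm'.le
      have h12 : -1 < c := lt_of_mul_lt_mul_left h10 hm'.le
      have h13 : c = 0 := by omega
      rw [h13, mul_zero] at hcc
      linarith
  rw [Int.card_Ico] at h1
  simpa using h1

/-- the relation between two points of one class -/
def Rel (w : ℕ) (e f : ℤ) (P Q : ℤ × ℤ) : Prop :=
  ∃ D D' : ℤ, Q.1 = P.1 + w * D ∧ Q.2 = P.2 + w * D' ∧
    (w : ℤ) ^ 2 ∣ e * (2 * P.1 * D - w * D ^ 2) * P.2 ^ 2 -
      f * (2 * P.2 * D' - w * D' ^ 2) * P.1 ^ 2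

/-- data of a class -/
structure Cls (w : ℕ) (e f : ℤ) (a b : ℤ) (A : ℕ) (K : Finset (ℤ × ℤ)) : Prop where
  pos : 0 < w
  cop : IsCoprime (2 * e * f * (e - f)) (w : ℤ)
  le : A ≤ w ^ 2
  m1 : ∀ P ∈ K, a ≤ P.1 ∧ P.1 < a + A
  m2 : ∀ P ∈ K, b ≤ P.2 ∧ P.2 < b + (w : ℤ) ^ 2
  c1 : ∀ P ∈ K, IsCoprime P.1 (w : ℤ)
  c2 : ∀ P ∈ K, IsCoprime P.2 (w : ℤ)
  rel : ∀ P ∈ K, ∀ Q ∈ K, Rel w e f P Q

variable {w : ℕ} {e f a b : ℤ} {A : ℕ} {K : Finset (ℤ × ℤ)}

theorem Cls.two (h : Cls w e f a b A K) : IsCoprime (2 : ℤ) w :=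
  h.cop.of_mul_left_left.of_mul_left_left.of_mul_left_left

theorem Cls.ce (h : Cls w e f a b A K) : IsCoprime e w :=
  h.cop.of_mul_left_left.of_mul_left_left.of_mul_left_right

theorem Cls.cf (h : Cls w e f a b A K) : IsCoprime f w :=
  h.cop.of_mul_left_left.of_mul_left_right

theorem Cls.cef (h : Cls w e f a b A K) : IsCoprime (e - f) w :=
  h.cop.of_mul_left_right

/-- first order relation -/
theorem first (h : Cls w e f a b A K) {P : ℤ × ℤ} (hP : P ∈ K) {D D' : ℤ}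
    (hd : (w : ℤ) ^ 2 ∣ e * (2 * P.1 * D - w * D ^ 2) * P.2 ^ 2 -
      f * (2 * P.2 * D' - w * D' ^ 2) * P.1 ^ 2) :
    (w : ℤ) ∣ e * D * P.2 - f * D' * P.1 := by
  have h1 : (w : ℤ) ∣ 2 * P.1 * P.2 * (e * D * P.2 - f * D' * P.1) := by
    have h2 : (w : ℤ) ∣ e * (2 * P.1 * D - w * D ^ 2) * P.2 ^ 2 -
      f * (2 * P.2 * D' - w * D' ^ 2) * P.1 ^ 2 := (dvd_pow_self _ two_ne_zero).trans hd
    have h3 : 2 * P.1 * P.2 * (e * D * P.2 - f * D' * P.1) =
        (e * (2 * P.1 * D - w * D ^ 2) * P.2 ^ 2 - f * (2 * P.2 * D' - w * D' ^ 2) * P.1 ^ 2) +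
        w * (e * D ^ 2 * P.2 ^ 2 - f * D' ^ 2 * P.1 ^ 2) := by ring
    rw [h3]
    exact dvd_add h2 (dvd_mul_right _ _)
  have h4 : IsCoprime (2 * P.1 * P.2) (w : ℤ) :=
    (h.two.mul_left (h.c1 P hP)).mul_left (h.c2 P hP)
  exact h4.symm.dvd_of_dvd_mul_left h1

/-- a point is determined by its first coordinate -/
theorem inj (h : Cls w e f a b A K) {P Q : ℤ × ℤ} (hP : P ∈ K) (hQ : Q ∈ K)
    (h1 : P.1 = Q.1) : P = Q := by
  obtain ⟨D, D', e1, e2, hd⟩ := h.rel P hP Q hQ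
  have hw : (0 : ℤ) < w := by exact_mod_cast h.pos
  have hD : D = 0 := by
    have : (w : ℤ) * D = 0 := by linarith
    exact (mul_eq_zero.1 this).resolve_left hw.ne'
  have h2 : (w : ℤ) ^ 2 ∣ (f * P.1 ^ 2 * (P.2 + Q.2 - 2 * w * D')) * D' := by
    have h3 : (f * P.1 ^ 2 * (P.2 + Q.2 - 2 * w * D')) * D' =
        -(e * (2 * P.1 * D - w * D ^ 2) * P.2 ^ 2 -
          f * (2 * P.2 * D' - w * D' ^ 2) * P.1 ^ 2) := by
      rw [hD, e2]
      ring
    rw [h3]
    exact (dvd_neg).2 hd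
  have h3 : IsCoprime (P.2 + Q.2 - 2 * w * D') (w : ℤ) := by
    have h4 : P.2 + Q.2 - 2 * w * D' = 2 * P.2 + w * (-D') := by
      rw [e2]
      ring
    rw [h4]
    exact (h.two.mul_left (h.c2 P hP)).add_mul_left_left _
  have h4 : IsCoprime ((w : ℤ) ^ 2) (f * P.1 ^ 2 * (P.2 + Q.2 - 2 * w * D')) :=
    (((h.cf.mul_left (h.c1 P hP).pow_left).mul_left h3).pow_right).symm
  have h5 : (w : ℤ) ^ 2 ∣ D' := h4.dvd_of_dvd_mul_left h2
  have h6 : D' = 0 := by
    have m1 := h.m2 P hP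
    have m2 := h.m2 Q hQ
    have h7 : |(w : ℤ) * D'| < (w : ℤ) ^ 2 := by
      have h8 : (w : ℤ) * D' = Q.2 - P.2 := by linarith
      rw [h8, abs_lt]
      constructor <;> linarith [m1.1, m1.2, m2.1, m2.2]
    rcases h5 with ⟨c, hc⟩
    have h9 : |D'| < (w : ℤ) ^ 2 := by
      rw [abs_mul, abs_of_pos hw] at h7
      have h10 : |D'| ≤ w * |D'| := by
        have : (1 : ℤ) * |D'| ≤ w * |D'| :=
          mul_le_mul_of_nonneg_right (by linarith) (abs_nonneg _)
        linarith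
      linarith
    exact Int.eq_zero_of_abs_lt_dvd ⟨c, hc⟩ h9
  rw [h6, mul_zero, add_zero] at e2
  exact Prod.ext h1 e2.symm

/-- second order relation -/
theorem second (h : Cls w e f a b A K) {P Q P' Q' : ℤ × ℤ} (hP : P ∈ K) (hQ : Q ∈ K)
    (hP' : P' ∈ K) (hQ' : Q' ∈ K) {D D' d : ℤ} (e1 : Q.1 = P.1 + w * D)
    (e2 : Q.2 = P.2 + w * D') (e3 : Q'.1 = P'.1 + w * D) (e4 : Q'.2 = P'.2 + w * D')
    (e5 : P'.1 = P.1 + w * d) : (w : ℤ) ∣ D * d := by
  have hw : (0 : ℤ) < w := by exact_mod_cast h.pos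
  have hcan : ∀ {x y : ℤ}, (w : ℤ) * x = w * y → x = y := fun h => mul_left_cancel₀ hw.ne' h
  obtain ⟨D1, D1', f1, f2, r1⟩ := h.rel P hP Q hQ
  obtain ⟨D2, D2', f3, f4, r2⟩ := h.rel P' hP' Q' hQ'
  obtain ⟨d1, d', f5, f6, r3⟩ := h.rel P hP P' hP'
  have g1 : D1 = D := hcan (by linarith)
  have g2 : D1' = D' := hcan (by linarith)
  have g3 : D2 = D := hcan (by linarith)
  have g4 : D2' = D' := hcan (by linarith)
  have g5 : d1 = d := hcan (by linarith)
  rw [g1, g2] at r1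
  rw [g3, g4] at r2
  rw [g5] at r3
  have k1 := first h hP r1
  have k3 := first h hP r3
  -- difference of the two relations
  obtain ⟨c1, hc1⟩ := k1
  obtain ⟨c3, hc3⟩ := k3
  have h1 : (w : ℤ) ^ 2 ∣ w * (2 * (e * D * (d * P.2 ^ 2 + 2 * P.1 * P.2 * d') -
      f * D' * (d' * P.1 ^ 2 + 2 * P.1 * P.2 * d))) := by
    have h2 := dvd_sub r2 r1
    rw [f5, f6, g5] at h2
    have h3 : w * (2 * (e * D * (d * P.2 ^ 2 + 2 * P.1 * P.2 * d') -
      f * D' * (d' * P.1 ^ 2 + 2 * P.1 * P.2 * d))) =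
      (e * (2 * (P.1 + w * d) * D - w * D ^ 2) * (P.2 + w * d') ^ 2 -
        f * (2 * (P.2 + w * d') * D' - w * D' ^ 2) * (P.1 + w * d) ^ 2 -
      (e * (2 * P.1 * D - w * D ^ 2) * P.2 ^ 2 -
        f * (2 * P.2 * D' - w * D' ^ 2) * P.1 ^ 2)) -
      (w : ℤ) ^ 2 * (e * (2 * P.1 * D * d' ^ 2 + 4 * d * D * P.2 * d' + 2 * w * d * D * d' ^ 2 -
          D ^ 2 * (2 * P.2 * d' + w * d' ^ 2)) -
        f * (2 * P.2 * D' * d ^ 2 + 4 * d' * D' * P.1 * d + 2 * w * d' * D' * d ^ 2 -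
          D' ^ 2 * (2 * P.1 * d + w * d ^ 2))) := by ring
    rw [h3]
    exact dvd_sub h2 (dvd_mul_right _ _)
  have h2 : (w : ℤ) ∣ 2 * (e * D * (d * P.2 ^ 2 + 2 * P.1 * P.2 * d') -
      f * D' * (d' * P.1 ^ 2 + 2 * P.1 * P.2 * d)) := by
    rw [pow_two] at h1
    exact Int.dvd_of_mul_dvd_mul_left hw.ne' h1
  -- insert the first order relations
  have h3 : (w : ℤ) ∣ (2 * e * P.2 ^ 2 * (e - f)) * (D * d) := by
    obtain ⟨c2, hc2⟩ := h2
    refine ⟨f * c2 + 2 * e * D * P.2 * c3 - 2 * f * c1 * (d' * P.1 + 2 * P.2 * d), ?_⟩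
    linear_combination f * hc2 + 2 * e * D * P.2 * hc3 -
      2 * f * (d' * P.1 + 2 * P.2 * d) * hc1
  have h4 : IsCoprime (2 * e * P.2 ^ 2 * (e - f)) (w : ℤ) :=
    ((h.two.mul_left h.ce).mul_left (h.c2 P hP).pow_left).mul_left h.cef
  exact h4.symm.dvd_of_dvd_mul_left h3

/-- pairs with given difference -/
def SD (w : ℕ) (K : Finset (ℤ × ℤ)) (D x : ℤ) : Finset ((ℤ × ℤ) × (ℤ × ℤ)) :=
  (K ×ˢ K).filter fun q => q.2.1 = q.1.1 + w * D ∧ q.2.2 = q.1.2 + w * x

theorem card_SD (h : Cls w e f a b A K) (D x : ℤ) :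
    (SD w K D x).card ≤ Nat.gcd D.natAbs w := by
  classical
  have hg : 0 < Nat.gcd D.natAbs w := Nat.gcd_pos_of_pos_right _ h.pos
  obtain ⟨w', hw'⟩ := Nat.gcd_dvd_right D.natAbs w
  have hw'0 : 0 < w' := by
    rcases Nat.eq_zero_or_pos w' with h0 | h0
    · rw [h0, mul_zero] at hw'
      exact absurd h.pos (by omega)
    · exact h0
  have hw : (0 : ℤ) < w := by exact_mod_cast h.pos
  have h1 : (SD w K D x).card = ((SD w K D x).image fun q => q.1.1).card := by
    refine (Finset.card_image_of_injOn ?_).symm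
    intro q hq q' hq' hqq
    simp only [SD, Finset.coe_filter, Finset.mem_product, Set.mem_ofPred_eq] at hq hq' hqq
    have h2 := inj h hq.1.1 hq'.1.1 hqq
    refine Prod.ext h2 (Prod.ext ?_ ?_)
    · rw [hq.2.1, hq'.2.1, h2]
    · rw [hq.2.2, hq'.2.2, h2]
  rw [h1]
  refine card_le_of_modEq (m := w * w') (a := a) (A := A) (Nat.mul_pos h.pos hw'0) ?_ _ ?_ ?_
  · have h2 : w * w' * Nat.gcd D.natAbs w = w ^ 2 := by
      calc w * w' * Nat.gcd D.natAbs w = w * (Nat.gcd D.natAbs w * w') := by ring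
        _ = w ^ 2 := by rw [← hw', pow_two]
    rw [h2]
    exact h.le
  · intro t ht
    rw [Finset.mem_image] at ht
    obtain ⟨q, hq, rfl⟩ := ht
    simp only [SD, Finset.mem_filter, Finset.mem_product] at hq
    exact h.m1 _ hq.1.1
  · intro t ht t' ht'
    rw [Finset.mem_image] at ht ht'
    obtain ⟨q, hq, rfl⟩ := ht
    obtain ⟨q', hq', rfl⟩ := ht'
    simp only [SD, Finset.mem_filter, Finset.mem_product] at hq hq'
    obtain ⟨d, d', f1, -, -⟩ := h.rel _ hq.1.1 _ hq'.1.1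
    have h2 := second h hq.1.1 hq.1.2 hq'.1.1 hq'.1.2 hq.2.1 hq.2.2 hq'.2.1 hq'.2.2 f1
    have h3 : (w' : ℤ) ∣ d := by
      have h4 : w ∣ D.natAbs * d.natAbs := by
        rw [← Int.natAbs_mul]
        exact Int.natCast_dvd.1 h2
      have h5 : w' ∣ d.natAbs := by
        have h6 : w ∣ Nat.gcd w D.natAbs * d.natAbs := by
          have := dvd_gcd_mul_of_dvd_mul h4
          rwa [gcd_eq_nat_gcd] at this
        rw [Nat.gcd_comm] at h6
        have h7 : Nat.gcd D.natAbs w * w' ∣ Nat.gcd D.natAbs w * d.natAbs := by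
          rw [← hw']
          exact h6
        exact Nat.dvd_of_mul_dvd_mul_left hg h7
      exact Int.natCast_dvd.2 h5
    obtain ⟨c, hc⟩ := h3
    refine ⟨c, ?_⟩
    rw [f1, hc]
    push_cast
    ring

/-- pairs with given first difference -/
def TD (w : ℕ) (K : Finset (ℤ × ℤ)) (D : ℤ) : Finset ((ℤ × ℤ) × (ℤ × ℤ)) :=
  (K ×ˢ K).filter fun q => q.2.1 = q.1.1 + w * D

theorem card_TD (h : Cls w e f a b A K) (D : ℤ) :
    (TD w K D).card ≤ 2 * Nat.gcd D.natAbs w := by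
  classical
  have hw : (0 : ℤ) < w := by exact_mod_cast h.pos
  have hcan : ∀ {x y : ℤ}, (w : ℤ) * x = w * y → x = y := fun h => mul_left_cancel₀ hw.ne' h
  rcases (TD w K D).eq_empty_or_nonempty with h0 | ⟨q0, hq0⟩
  · rw [h0, Finset.card_empty]
    exact Nat.zero_le _
  simp only [TD, Finset.mem_filter, Finset.mem_product] at hq0
  obtain ⟨D0, D0', f1, f2, r0⟩ := h.rel _ hq0.1.1 _ hq0.1.2
  have g0 : D0 = D := hcan (by linarith [hq0.2])
  rw [g0] at r0
  have k0 := first h hq0.1.1 r0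
  have hsub : TD w K D ⊆ SD w K D (D0' % w) ∪ SD w K D (D0' % w - w) := by
    intro q hq
    simp only [TD, Finset.mem_filter, Finset.mem_product] at hq
    obtain ⟨D1, D1', f3, f4, r1⟩ := h.rel _ hq.1.1 _ hq.1.2
    have g1 : D1 = D := hcan (by linarith [hq.2])
    rw [g1] at r1
    have k1 := first h hq.1.1 r1
    obtain ⟨d, d', f5, f6, -⟩ := h.rel _ hq0.1.1 _ hq.1.1
    have h1 : (w : ℤ) ∣ f * q0.1.1 * (D1' - D0') := by
      obtain ⟨c0, hc0⟩ := k0
      obtain ⟨c1, hc1⟩ := k1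
      rw [f5, f6] at hc1
      refine ⟨c0 - c1 + e * D * d' - f * D1' * d, ?_⟩
      linear_combination hc0 - hc1
    have h2 : IsCoprime (f * q0.1.1) (w : ℤ) := h.cf.mul_left (h.c1 _ hq0.1.1)
    have h3 : (w : ℤ) ∣ D1' - D0' := h2.symm.dvd_of_dvd_mul_left h1
    have h4 : |D1'| < w := by
      have m1 := h.m2 _ hq.1.1
      have m2 := h.m2 _ hq.1.2
      have h5 : |(w : ℤ) * D1'| < w * w := by
        have h8 : (w : ℤ) * D1' = q.2.2 - q.1.2 := by linarith
        rw [h8, abs_lt]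
        constructor <;> nlinarith [m1.1, m1.2, m2.1, m2.2]
      rw [abs_mul, abs_of_pos hw] at h5
      exact lt_of_mul_lt_mul_left h5 hw.le
    rw [abs_lt] at h4
    have h5 : D1' % w = D0' % w := (Int.modEq_iff_dvd.2 h3).symm
    rw [Finset.mem_union]
    rcases le_or_gt 0 D1' with h6 | h6
    · left
      simp only [SD, Finset.mem_filter, Finset.mem_product]
      refine ⟨hq.1, hq.2, ?_⟩
      rw [← h5, Int.emod_eq_of_lt h6 h4.2]
      exact f4
    · right
      simp only [SD, Finset.mem_filter, Finset.mem_product]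
      refine ⟨hq.1, hq.2, ?_⟩
      have h7 : D1' % w = D1' + w := by
        rw [← Int.add_emod_right, Int.emod_eq_of_lt (by linarith) (by linarith)]
      rw [← h5, h7, add_sub_cancel_right]
      exact f4
  calc (TD w K D).card ≤ _ := Finset.card_le_card hsub
    _ ≤ _ := Finset.card_union_le _ _
    _ ≤ Nat.gcd D.natAbs w + Nat.gcd D.natAbs w := Nat.add_le_add (card_SD h _ _) (card_SD h _ _)
    _ = 2 * Nat.gcd D.natAbs w := (two_mul _).symm

/-- number of points in a class -/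
theorem card_class (h : Cls w e f a b A K) :
    K.card ^ 2 ≤ K.card + 4 * (A / w * w.divisors.card) := by
  classical
  have hw : (0 : ℤ) < w := by exact_mod_cast h.pos
  have hsub : K ×ˢ K ⊆ (K.image fun P => (P, P)) ∪
      (Finset.Ioc 0 (A / w)).biUnion fun D => TD w K (D : ℤ) ∪ TD w K (-(D : ℤ)) := by
    intro q hq
    rw [Finset.mem_product] at hq
    obtain ⟨D, D', f1, f2, -⟩ := h.rel _ hq.1 _ hq.2
    rw [Finset.mem_union]
    by_cases hD : D = 0
    · left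
      rw [Finset.mem_image]
      have h1 : q.1 = q.2 := inj h hq.1 hq.2 (by rw [f1, hD, mul_zero, add_zero])
      exact ⟨q.1, hq.1, Prod.ext rfl h1⟩
    · right
      rw [Finset.mem_biUnion]
      have m1 := h.m1 _ hq.1
      have m2 := h.m1 _ hq.2
      refine ⟨D.natAbs, ?_, ?_⟩
      · rw [Finset.mem_Ioc]
        refine ⟨Int.natAbs_pos.2 hD, ?_⟩
        rw [Nat.le_div_iff_mul_le h.pos]
        have h1 : |D| * w ≤ A := by
          have h2 : |D| * w = |q.2.1 - q.1.1| := by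
            rw [f1, add_sub_cancel_left, abs_mul, abs_of_pos hw, mul_comm]
          rw [h2, abs_le]
          constructor <;> linarith [m1.1, m1.2, m2.1, m2.2]
        rw [Int.abs_eq_natAbs] at h1
        exact_mod_cast h1
      · rw [Finset.mem_union]
        rcases le_or_gt 0 D with h1 | h1
        · left
          rw [Int.natAbs_of_nonneg h1]
          simp only [TD, Finset.mem_filter, Finset.mem_product]
          exact ⟨hq, f1⟩
        · right
          have h2 : -((D.natAbs : ℕ) : ℤ) = D := by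
            rw [Int.ofNat_natAbs_of_nonpos h1.le, neg_neg]
          rw [h2]
          simp only [TD, Finset.mem_filter, Finset.mem_product]
          exact ⟨hq, f1⟩
  calc K.card ^ 2 = (K ×ˢ K).card := by rw [Finset.card_product, pow_two]
    _ ≤ _ := Finset.card_le_card hsub
    _ ≤ _ := Finset.card_union_le _ _
    _ ≤ K.card + ∑ D ∈ Finset.Ioc 0 (A / w), 4 * Nat.gcd D w := by
        refine Nat.add_le_add Finset.card_image_le (Finset.card_biUnion_le.trans ?_)
        refine Finset.sum_le_sum fun D _ => (Finset.card_union_le _ _).trans ?_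
        have h1 := card_TD h (D : ℤ)
        have h2 := card_TD h (-(D : ℤ))
        rw [Int.natAbs_neg] at h2
        rw [Int.natAbs_natCast] at h1 h2
        omega
    _ = K.card + 4 * ∑ D ∈ Finset.Ioc 0 (A / w), Nat.gcd D w := by rw [Finset.mul_sum]
    _ ≤ K.card + 4 * (A / w * w.divisors.card) :=
        Nat.add_le_add_left (Nat.mul_le_mul_left _ (sum_gcd_le _ _ h.pos)) _

end Pool.Agent.Helper69.EN
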