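import Pool.Agent.Helper51.ABC.PairFiber

/-!
Coprime pairs with `n ^ j = c l ^ j` modulo `m`.
-/

set_option autoImplicit false

namespace Pool.Agent.Helper69.EN

open Finset

/-- number of binary scales -/
theorem log_two_le {ε : ℝ} (hε : 0 < ε) :
    ∃ C : ℝ, 0 < C ∧ ∀ P : ℝ, 1 ≤ P → ((Nat.log 2 ⌊P⌋₊ + 1 : ℕ) : ℝ) ≤ C * P ^ ε := by
  refine ⟨1 / (ε * Real.log 2) + 1, by positivity, fun P hP => ?_⟩
  have hP0 : 0 < P := by linarith
  have hfl : 0 < ⌊P⌋₊ := Nat.floor_pos.2 hP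
  have hl2 : 0 < Real.log 2 := Real.log_pos (by norm_num)
  have h1 : ((2 : ℝ)) ^ (Nat.log 2 ⌊P⌋₊) ≤ P := by
    have h2 : 2 ^ (Nat.log 2 ⌊P⌋₊) ≤ ⌊P⌋₊ := Nat.pow_log_le_self 2 hfl.ne'
    have h3 : (((2 ^ (Nat.log 2 ⌊P⌋₊) : ℕ)) : ℝ) ≤ (⌊P⌋₊ : ℝ) := by exact_mod_cast h2
    push_cast at h3
    exact h3.trans (Nat.floor_le hP0.le)
  have h2 : (Nat.log 2 ⌊P⌋₊ : ℝ) * Real.log 2 ≤ Real.log P := by
    rw [← Real.log_pow]
    exact Real.log_le_log (by positivity) h1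
  have h3 : Real.log P ≤ P ^ ε / ε := Real.log_le_rpow_div hP0.le hε
  have h4 : (Nat.log 2 ⌊P⌋₊ : ℝ) ≤ 1 / (ε * Real.log 2) * P ^ ε := by
    have h5 : (Nat.log 2 ⌊P⌋₊ : ℝ) ≤ (P ^ ε / ε) / Real.log 2 := by
      rw [le_div_iff₀ hl2]
      linarith
    calc (Nat.log 2 ⌊P⌋₊ : ℝ) ≤ (P ^ ε / ε) / Real.log 2 := h5
      _ = _ := by field_simp
  have h5 : (1 : ℝ) ≤ P ^ ε := Real.one_le_rpow hP hε.le
  push_cast
  linarith

theorem dir (j : ℕ) (hj : 1 ≤ j) {ε : ℝ} (hε : 0 < ε) :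
    ∃ C : ℝ, 0 < C ∧ ∀ (m : ℕ) (u v : ℤ) (P Q : ℝ) (F : Finset (ℕ × ℕ)),
      1 ≤ m → IsCoprime u (m : ℤ) → IsCoprime v (m : ℤ) → 1 ≤ P → 1 ≤ Q →
      (∀ c ∈ F, 0 < c.1 ∧ 0 < c.2 ∧ c.1.Coprime c.2 ∧ c.1.Coprime m ∧ c.2.Coprime m ∧
        (c.1 : ℝ) ≤ P ∧ (c.2 : ℝ) ≤ Q ∧ (m : ℤ) ∣ u * (c.1 : ℤ) ^ j - v * (c.2 : ℤ) ^ j) →
      (F.card : ℝ) ≤ C * (m * P) ^ ε * (1 + P * Q / m) := by
  classical
  obtain ⟨C, hC, h⟩ := Pool.Agent.Helper92.ABC.pair_fiber j hj ε hε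
  obtain ⟨C2, hC2, hlog⟩ := log_two_le hε
  refine ⟨C * (C2 + 8), by positivity, ?_⟩
  intro m u v P Q F hm hu hv hP hQ hF
  have hm0 : (0 : ℝ) < m := by exact_mod_cast hm
  have hP0 : 0 < P := by linarith
  have hQ0 : 0 < Q := by linarith
  have hfl : 0 < ⌊P⌋₊ := Nat.floor_pos.2 hP
  set L := Nat.log 2 ⌊P⌋₊ with hL
  have hmaps : ∀ c ∈ F, Nat.log 2 c.1 ∈ Finset.range (L + 1) := by
    intro c hc
    obtain ⟨h1, -, -, -, -, h2, -⟩ := hF c hc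
    rw [Finset.mem_range, hL]
    exact Nat.lt_succ_of_le (Nat.log_mono_right (Nat.le_floor h2))
  have hblock : ∀ i ∈ Finset.range (L + 1),
      (((F.filter fun c => Nat.log 2 c.1 = i).card : ℕ) : ℝ) ≤
        C * (m : ℝ) ^ ε * (1 + 4 * Q * 2 ^ i / m) := by
    intro i _
    have h1 := h m u v (2 ^ i) (2 ^ (i + 1)) Q (F.filter fun c => Nat.log 2 c.1 = i) hm hu hv
      (one_le_pow₀ (by norm_num)) (one_le_pow₀ (by norm_num)) hQ ?_
    · refine h1.trans (le_of_eq ?_)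
      congr 2
      rw [pow_succ]
      field_simp
      ring
    · intro c hc
      obtain ⟨hcF, hci⟩ := Finset.mem_filter.1 hc
      obtain ⟨h2, h3, h4, h5, h6, h7, h8, h9⟩ := hF c hcF
      refine ⟨h2, h3, h4, h5, h6, ?_, ?_, h8, h9⟩
      · have := Nat.pow_log_le_self 2 h2.ne'
        rw [hci] at this
        exact_mod_cast this
      · have := Nat.lt_pow_succ_log_self (b := 2) (by norm_num) c.1
        rw [hci] at this
        have h10 : (c.1 : ℝ) < ((2 ^ (i + 1) : ℕ) : ℝ) := by exact_mod_cast this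
        push_cast at h10
        exact h10.le
  have hsum : ∑ i ∈ Finset.range (L + 1), (1 + 4 * Q * 2 ^ i / (m : ℝ)) ≤
      (L + 1 : ℕ) + 8 * (P * Q / m) := by
    rw [Finset.sum_add_distrib, Finset.sum_const, Finset.card_range, nsmul_eq_mul, mul_one]
    have h1 : ∑ i ∈ Finset.range (L + 1), 4 * Q * 2 ^ i / (m : ℝ) =
        4 * Q / m * ∑ i ∈ Finset.range (L + 1), (2 : ℝ) ^ i := by
      rw [Finset.mul_sum]
      refine Finset.sum_congr rfl fun i _ => by ring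
    have h2 : ∑ i ∈ Finset.range (L + 1), (2 : ℝ) ^ i ≤ 2 * P := by
      rw [geom_sum_eq (by norm_num)]
      have h3 : ((2 : ℝ)) ^ L ≤ P := by
        have h4 : 2 ^ L ≤ ⌊P⌋₊ := Nat.pow_log_le_self 2 hfl.ne'
        have h5 : (((2 ^ L : ℕ)) : ℝ) ≤ (⌊P⌋₊ : ℝ) := by exact_mod_cast h4
        push_cast at h5
        exact h5.trans (Nat.floor_le hP0.le)
      rw [pow_succ]
      have : (2 : ℝ) - 1 = 1 := by norm_num
      rw [this, div_one]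
      linarith
    rw [h1]
    have h3 : 4 * Q / m * ∑ i ∈ Finset.range (L + 1), (2 : ℝ) ^ i ≤ 4 * Q / m * (2 * P) :=
      mul_le_mul_of_nonneg_left h2 (by positivity)
    have h4 : 4 * Q / (m : ℝ) * (2 * P) = 8 * (P * Q / m) := by ring
    linarith
  have hcard : (F.card : ℝ) = ∑ i ∈ Finset.range (L + 1),
      (((F.filter fun c => Nat.log 2 c.1 = i).card : ℕ) : ℝ) := by
    rw [Finset.card_eq_sum_card_fiberwise hmaps]
    push_cast
    rfl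
  have hPe : (1 : ℝ) ≤ P ^ ε := Real.one_le_rpow hP hε.le
  have hme : (0 : ℝ) < (m : ℝ) ^ ε := by positivity
  have hPQ : 0 ≤ P * Q / m := by positivity
  calc (F.card : ℝ) = _ := hcard
    _ ≤ ∑ i ∈ Finset.range (L + 1), C * (m : ℝ) ^ ε * (1 + 4 * Q * 2 ^ i / m) :=
        Finset.sum_le_sum hblock
    _ = C * (m : ℝ) ^ ε * ∑ i ∈ Finset.range (L + 1), (1 + 4 * Q * 2 ^ i / (m : ℝ)) := by
        rw [Finset.mul_sum]
    _ ≤ C * (m : ℝ) ^ ε * ((L + 1 : ℕ) + 8 * (P * Q / m)) :=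
        mul_le_mul_of_nonneg_left hsum (by positivity)
    _ ≤ C * (m : ℝ) ^ ε * ((C2 + 8) * P ^ ε * (1 + P * Q / m)) := by
        refine mul_le_mul_of_nonneg_left ?_ (by positivity)
        have h1 := hlog P hP
        have h2 : 8 * (P * Q / m) ≤ 8 * P ^ ε * (P * Q / m) := by nlinarith
        have h3 : 0 ≤ C2 * P ^ ε * (P * Q / m) := by positivity
        have h4 : 0 ≤ 8 * P ^ ε := by positivity
        calc ((L + 1 : ℕ) : ℝ) + 8 * (P * Q / m) ≤ C2 * P ^ ε + 8 * P ^ ε * (P * Q / m) :=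
              add_le_add h1 h2
          _ ≤ (C2 + 8) * P ^ ε * (1 + P * Q / m) := by nlinarith
    _ = C * (C2 + 8) * (m * P) ^ ε * (1 + P * Q / m) := by
        rw [Real.mul_rpow hm0.le hP0.le]
        ring

end Pool.Agent.Helper69.EN
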